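import Pool.Agent.Q137.BB.Main

open Pool.Agent.Q137.BB

namespace Pool.Agent.Results.MP_6f07cb_gt.PureThreeBraid

/-- There is an order-preserving braid on three strands, namely `(σ₂ σ₁⁻¹)³`, such that every
eigenvalue of its reduced Burau matrix in the field of Puiseux series is negative. -/
theorem result : ∃ β : B3, OrderPreserving β ∧ ∀ a, IsEigenvalue β a → a.leadingCoeff < 0 :=
  ⟨beta, beta_orderPreserving, beta_eigenvalues⟩

end Pool.Agent.Results.MP_6f07cb_gt.PureThreeBraid
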